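import Pool.Agent.helper22.WC.Spec

set_option autoImplicit false

namespace Pool.Agent.WC

open Pool.Agent.helper58.DC Pool.Agent.DI Pool.Agent.DR

/-- wc:FNB. -/
theorem FNB (hKEY : KEY_stmt) (hD1T : D1T_stmt) : FNB_stmt := by
  intro p _ 𝒳 hSub
  constructor
  · intro hQ G E A _ _ _ _ _ X hE hop d hd
    rw [hKEY G E A X p (fun _ => True) d hop ?_, ← hD1T G E A X p d, hQ G E A X hE hop d hd, mul_zero]
    intro K' E' _ _ _ _ Y σ _ hop'
    have h1 := hD1T K' E' A Y p d
    rw [hQ K' E' A Y (hSub E E' σ.ε σ.ε_inj hE) hop' d hd, mul_zero] at h1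
    exact h1.symm
  · intro hJ
    have key : ∀ n : ℕ, ∀ (G E A : Type) [Group G] [Group E] [Group A] [Finite G] [Finite E]
        (X : Extension G E A), Nat.card E = n → 𝒳 E → IsOp p (⊤ : Subgroup G) ⊥ →
        ∀ d : ℤ, 1 ≤ d → altT X p d = 0 := by
      intro n
      induction n using Nat.strong_induction_on with
      | _ n ih =>
        intro G E A _ _ _ _ _ X hn hE hop d hd
        have h1 := hKEY G E A X p (fun _ => True) d hop (by
          intro K' E' _ _ _ _ Y σ hlt hop'
          have h2 := hD1T K' E' A Y p d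
          rw [ih (Nat.card E') (by omega) K' E' A Y rfl (hSub E E' σ.ε σ.ε_inj hE) hop' d hd, mul_zero] at h2
          exact h2.symm)
        rw [hJ G E A X hE hop d hd, ← hD1T G E A X p d] at h1
        have h3 : (Nat.card G : ℤ) ≠ 0 := by
          exact_mod_cast Nat.card_pos.ne'
        exact (mul_eq_zero.1 h1.symm).resolve_left h3
    intro G E A _ _ _ _ _ X hE hop d hd
    exact key _ G E A X rfl hE hop d hd

end Pool.Agent.WC
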